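import Pool.Agent.ZPL53.Fin
import Pool.Agent.ETCT.K4
import Pool.Agent.AST.TOP

/-!
# Theorem Z+ and (K4): in a least structure with `-1 = 1` which is not of elementary type, the
non-slots of each symbol `a` generate `D_a`
-/

set_option autoImplicit false
set_option linter.unusedSectionVars false

namespace Pool.Agent.ZPL53

open QS Pool.Agent.ETG Pool.Agent.RFN Pool.Agent.AST
open Pool.Agent.Helper58.PLine (QData exists_functional)
open Pool.Agent.REL34 (Sl lk ss xxy xyy rc r0 lc l0 ladd q0 zq Sl.co DD)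
open Pool.Agent.ETCP (C)

/-- the facts from (K4) which are used -/
def K4P {V Q : Type} [AddCommGroup V] [Module (ZMod 2) V] (S : QData V Q) : Prop :=
  ∀ x w, x ≠ 0 → ¬ C S x w → ∃ w' s, C S x (w + w') ∧ C S w' s ∧ ¬ C S x s ∧ ¬ C S x (s + w)

/-- **the non-slots of `a` generate `D_a`** -/
theorem spans {V Q : Type} [AddCommGroup V] [Module (ZMod 2) V] [Finite V] {S : QData V Q}
    (he : S.e = 0) (hK : K4P S) {a : Q} (ha : a ≠ S.z) (K : Submodule (ZMod 2) V)
    (h : ∀ v, (∃ s, Sl S a s ∧ S.q s v = S.z) → v ∉ K → Sl S a v) :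
    ∀ v, (∃ s, Sl S a s ∧ S.q s v = S.z) → v ∈ K := by
  intro x hx
  by_contra hxK
  obtain ⟨f, hf1, hf0⟩ := exists_functional hxK
  have hsl : ∃ s, Sl S a s := by
    obtain ⟨s, hs, -⟩ := hx
    exact ⟨s, hs⟩
  let D : Submodule (ZMod 2) V := DD S a hsl
  let l : D →ₗ[ZMod 2] ZMod 2 := f.comp D.subtype
  have H : HZ S a D l := by
    refine ⟨he, ha, fun t => Iff.rfl, ?_, ?_⟩
    · intro v hv
      refine h v v.2 fun hvK => hv ?_
      exact hf0 _ hvK
    · refine ⟨⟨x, hx⟩, ?_⟩
      show f x ≠ 0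
      rw [hf1]
      exact one_ne_zero
  obtain ⟨t, ⟨w, hw⟩, ht⟩ := zplus H
  have ht0 : t ≠ 0 := by
    rintro rfl
    rw [zq] at hw
    exact ha hw.symm
  have hwn : ¬ C S t w := fun h1 => ha (hw.symm.trans h1)
  obtain ⟨w', s, h1, h2, h3, h4⟩ := hK t w ht0 hwn
  have h5 : S.q t w' = a := by
    have := r0 (S := S) hw h1
    rwa [xxy] at this
  have hsD : s ∈ D := ⟨w', ⟨t, by rw [S.symm, h5]⟩, h2⟩
  by_cases hl : l ⟨s, hsD⟩ = 0
  · exact h3 ((ht ⟨s, hsD⟩).1 hl)
  · exact h4 (rc ((ht ⟨s, hsD⟩).2 hl) hw)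

/-- LAW W for `S`: for some symbol `c ≠ 0` the elements of `D_c` which are no slots of `c` are in
a subgroup which does not contain `D_c` -/
def LawW (S : QStruct) : Prop := ∃ c, c ≠ S.zero ∧ ∃ K : Subgroup S.G,
  (∃ s t x, S.q s t = c ∧ S.q s x = S.zero ∧ x ∉ K) ∧
  ∀ s t v, S.q s t = c → S.q s v = S.zero → v ∉ K → ∃ w, S.q v w = c

/-- **LAW W in a least structure** -/
theorem elem_of_W (S : QStruct) [Finite S.G] (hneg : S.neg = 1)
    (hT : ∀ T : QStruct, Finite T.G → T.neg = 1 → Nat.card T.G < Nat.card S.G → ElemType T)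
    (h : LawW S) : ElemType S := by
  by_contra hS
  obtain ⟨c, hc, K, ⟨s0, t0, x0, e1, e2, e3⟩, h2⟩ := h
  have hET : ¬ ETZ (ZS S) := fun h => hS (h S (qof S hneg))
  have hfin : Finite (Additive S.G) := (inferInstance : Finite S.G)
  have hK : K4P (toD S hneg) := fun x w hx hw =>
    Pool.Agent.ETCT.K4Z (lzs S hneg) (smaller S hT) hET hx hw
  let K' : Submodule (ZMod 2) (Additive S.G) :=
    { carrier := {v | Additive.toMul v ∈ K}
      add_mem' := fun {a b} ha hb => K.mul_mem ha hb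
      zero_mem' := K.one_mem
      smul_mem' := fun r a ha => by
        rcases Pool.Agent.ZPC2.smul_cases r a with e | e
        · rw [e]
          exact K.one_mem
        · rw [e]
          exact ha }
  refine e3 (spans (S := toD S hneg) rfl hK hc K' ?_ (Additive.ofMul x0)
    ⟨Additive.ofMul s0, ⟨Additive.ofMul t0, e1⟩, e2⟩)
  rintro v ⟨s, ⟨t, h3⟩, h4⟩ hv
  obtain ⟨w, hw⟩ := h2 (Additive.toMul s) (Additive.toMul t) (Additive.toMul v) h3 h4 hv
  exact ⟨Additive.ofMul w, hw⟩

/-- **LAW W implies the elementary type conjecture, `-1 = 1`** -/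
theorem etc_of_W (h : ∀ S : QStruct, Finite S.G → S.neg = 1 → ¬ ElemType S →
    (∀ T : QStruct, Finite T.G → T.neg = 1 → Nat.card T.G < Nat.card S.G → ElemType T) →
    LawW S) : ∀ S : QStruct, Finite S.G → S.neg = 1 → ElemType S := by
  have key : ∀ (n : ℕ) (S : QStruct), Finite S.G → Nat.card S.G = n → S.neg = 1 →
      ElemType S := by
    intro n
    induction n using Nat.strong_induction_on with
    | _ n ih =>
      intro S hf hn hneg
      by_contra hS
      have := hf
      have hT : ∀ T : QStruct, Finite T.G → T.neg = 1 → Nat.card T.G < Nat.card S.G →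
          ElemType T := fun T hTf hTn hc => ih _ (by omega) T hTf rfl hTn
      exact hS (elem_of_W S hneg hT (h S hf hneg hS hT))
  exact fun S hf hneg => key _ S hf rfl hneg

end Pool.Agent.ZPL53
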