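import Pool.Agent.ZPL53.Door

/-!
# Theorem Z+ for quaternionic structures with `-1 = 1`
-/

set_option autoImplicit false
set_option linter.unusedSectionVars false

namespace Pool.Agent.ZPL53

open QS Pool.Agent.ETG Pool.Agent.RFN Pool.Agent.AST
open Pool.Agent.Helper58.PLine (QData exists_functional)
open Pool.Agent.REL34 (Sl lk ss xxy xyy rc r0 lc l0 ladd q0 zq Sl.co DD)

/-- Theorem Z+ without the functional -/
theorem zplus' {V Q : Type} [AddCommGroup V] [Module (ZMod 2) V] [Finite V] {S : QData V Q}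
    (he : S.e = 0) {a : Q} (ha : a ≠ S.z) (K : Submodule (ZMod 2) V)
    (h : ∀ v, (∃ s, Sl S a s ∧ S.q s v = S.z) → v ∉ K → Sl S a v)
    {x : V} (hx : ∃ s, Sl S a s ∧ S.q s x = S.z) (hxK : x ∉ K) :
    ∃ t w, S.q t w = a ∧ ∀ v, (∃ s, Sl S a s ∧ S.q s v = S.z) →
      S.q t v = S.z ∨ S.q t (v + w) = S.z := by
  obtain ⟨f, hf1, hf0⟩ := exists_functional hxK
  have hsl : ∃ s, Sl S a s := by
    obtain ⟨s, hs, -⟩ := hx
    exact ⟨s, hs⟩
  let D : Submodule (ZMod 2) V := DD S a hsl
  let l : D →ₗ[ZMod 2] ZMod 2 := f.comp D.subtype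
  have H : HZ S a D l := by
    refine ⟨he, ha, fun t => Iff.rfl, ?_, ?_⟩
    · intro v hv
      refine h v v.2 fun hvK => hv ?_
      exact hf0 _ hvK
    · refine ⟨⟨x, hx⟩, ?_⟩
      show f x ≠ 0
      rw [hf1]
      exact one_ne_zero
  obtain ⟨t, ⟨w, hw⟩, ht⟩ := zplus H
  refine ⟨t, w, hw, fun v hv => ?_⟩
  by_cases hl : l ⟨v, hv⟩ = 0
  · exact Or.inl ((ht ⟨v, hv⟩).1 hl)
  · exact Or.inr (rc ((ht ⟨v, hv⟩).2 hl) hw)

/-- **Theorem Z+ (notes 3283, 3284) for quaternionic structures with `-1 = 1`**: the elements of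
`D_c` which are no slots of `c ≠ 0` do not generate `D_c` if and only if `D_c = V_t ∪ w V_t` for
some `t`, `w` with `q (t, w) = c`.  Here `V_t = {v : q (t, v) = 0}` and `D_c` is the union of the
`V_s` of the slots `s` of `c`. -/
theorem zplus_iff (S : QStruct) [Finite S.G] (hneg : S.neg = 1) {c : S.Q} (hc : c ≠ S.zero) :
    (∃ K : Subgroup S.G, (∃ s t x, S.q s t = c ∧ S.q s x = S.zero ∧ x ∉ K) ∧
      ∀ s t v, S.q s t = c → S.q s v = S.zero → v ∉ K → ∃ w, S.q v w = c) ↔
    ∃ t w, S.q t w = c ∧ ∀ s r v, S.q s r = c → S.q s v = S.zero →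
      S.q t v = S.zero ∨ S.q t (v * w) = S.zero := by
  constructor
  · rintro ⟨K, ⟨s0, t0, x0, e1, e2, e3⟩, h2⟩
    have hfin : Finite (Additive S.G) := (inferInstance : Finite S.G)
    let K' : Submodule (ZMod 2) (Additive S.G) :=
      { carrier := {v | Additive.toMul v ∈ K}
        add_mem' := fun {a b} ha hb => K.mul_mem ha hb
        zero_mem' := K.one_mem
        smul_mem' := fun r a ha => by
          rcases Pool.Agent.ZPC2.smul_cases r a with e | e
          · rw [e]
            exact K.one_mem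
          · rw [e]
            exact ha }
    obtain ⟨t, w, h3, h4⟩ := zplus' (S := toD S hneg) rfl hc K' (by
      rintro v ⟨s, ⟨t, h3⟩, h4⟩ hv
      obtain ⟨w, hw⟩ := h2 (Additive.toMul s) (Additive.toMul t) (Additive.toMul v) h3 h4 hv
      exact ⟨Additive.ofMul w, hw⟩) (x := Additive.ofMul x0)
      ⟨Additive.ofMul s0, ⟨Additive.ofMul t0, e1⟩, e2⟩ e3
    exact ⟨Additive.toMul t, Additive.toMul w, h3, fun s r v h5 h6 =>
      h4 (Additive.ofMul v) ⟨Additive.ofMul s, ⟨Additive.ofMul r, h5⟩, h6⟩⟩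
  · rintro ⟨t, w, h1, h2⟩
    let K : Subgroup S.G :=
      { carrier := {v | S.q t v = S.zero}
        mul_mem' := fun {a b} ha hb => by
          have h3 : S.q t a = S.q t b := by
            rw [show S.q t a = S.zero from ha, show S.q t b = S.zero from hb]
          exact (S.qs3 t a b).1 h3
        one_mem' := S.q_one t
        inv_mem' := fun {a} ha => by
          have h3 : a⁻¹ = a := inv_eq_of_mul_eq_one_left (S.exp_two a)
          show S.q t a⁻¹ = S.zero
          rw [h3]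
          exact ha }
    refine ⟨K, ⟨w, t, w, by rw [S.qs2]; exact h1, ?_, ?_⟩, ?_⟩
    · have := S.qs1 w
      rwa [hneg, one_mul] at this
    · intro h3
      exact hc (h1.symm.trans h3)
    · intro s r v h3 h4 h5
      rcases h2 s r v h3 h4 with h6 | h6
      · exact absurd h6 h5
      · refine ⟨t, ?_⟩
        rw [S.qs2, (S.qs3 t v w).2 h6, h1]

end Pool.Agent.ZPL53
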