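import Pool.Agent.ZPL53.Tw

/-!
# Theorem Z+ (note 3284 of helper13), set valued: steps (2)-(5)
-/

set_option autoImplicit false
set_option linter.unusedSectionVars false

namespace Pool.Agent.ZPL53

open Pool.Agent.ZPC2
open Pool.Agent.Helper58.PLine (QData)
open Pool.Agent.REL34 (Sl lk ss xxy xyy rc r0 lc l0 ladd q0 zq Sl.co)
open Pool.Agent.HAS82 (ind ind_and natCard_eq card_mul card_mono)
open scoped Classical
open Finset

variable {V Q : Type} [AddCommGroup V] [Module (ZMod 2) V] {S : QData V Q} {a : Q}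
  {D : Submodule (ZMod 2) V} {l : D →ₗ[ZMod 2] ZMod 2}

/-- the kernel of the inner map of `p` -/
noncomputable abbrev K0 (H : HZ S a D l) (p : V) : Submodule (ZMod 2) D := Kf (tw H) (0, p)

/-- the kernel of the twisted map of `p` -/
noncomputable abbrev K1 (H : HZ S a D l) (p : V) : Submodule (ZMod 2) D := Kf (tw H) (1, p)

theorem mem_K0 (H : HZ S a D l) {p : V} {v : D} : v ∈ K0 H p ↔ S.q v p = S.z := by
  show (tw H).q v (0, p) = S.z ↔ _
  rw [tw_0]

theorem mem_K1 (H : HZ S a D l) {p : V} {v : D} :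
    v ∈ K1 H p ↔ S.q v p = S.q v (tau S a l v) := tw_1z H

theorem K_inf (H : HZ S a D l) (p : V) :
    K1 H p ⊓ LinearMap.ker l = K0 H p ⊓ LinearMap.ker l := by
  ext v
  rw [Submodule.mem_inf, Submodule.mem_inf, mem_K0, mem_K1, LinearMap.mem_ker]
  constructor
  · rintro ⟨h1, h2⟩
    exact ⟨by rw [h1, tau0' h2], h2⟩
  · rintro ⟨h1, h2⟩
    exact ⟨by rw [h1, tau0' h2], h2⟩

theorem card_in [Finite V] {K : Submodule (ZMod 2) D} (h : K ≤ LinearMap.ker l) :
    Nat.card K = Nat.card (K ⊓ LinearMap.ker l : Submodule (ZMod 2) D) := by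
  rw [inf_eq_left.2 h]

theorem card_out [Finite V] {K : Submodule (ZMod 2) D} (h : ¬ K ≤ LinearMap.ker l) :
    Nat.card K = 2 * Nat.card (K ⊓ LinearMap.ker l : Submodule (ZMod 2) D) := by
  obtain ⟨x, hx, hxl⟩ := SetLike.not_le_iff_exists.1 h
  rw [LinearMap.mem_ker] at hxl
  have h1 := card_mul K (LinearMap.ker l)
  have h2 : K ⊔ LinearMap.ker l = ⊤ := by
    rw [eq_top_iff]
    intro v _
    by_cases hv : l v = 0
    · exact Submodule.mem_sup_right hv
    · have h3 : v = x + (x + v) := by rw [ab]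
      rw [h3]
      exact Submodule.add_mem_sup hx (l_add hxl hv)
  rw [h2] at h1
  have h3 := Submodule.card_eq_card_quotient_mul_card (LinearMap.ker l)
  have h4 : Nat.card (D ⧸ LinearMap.ker l) = 2 := by
    have hs : Function.Surjective l := by
      intro c
      refine ⟨c • x, ?_⟩
      rw [map_smul, one_of hxl, smul_eq_mul, mul_one]
    rw [Nat.card_congr (l.quotKerEquivOfSurjective hs).toEquiv]
    simp
  have h5 : Nat.card (⊤ : Submodule (ZMod 2) D) = Nat.card D :=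
    Nat.card_congr (Equiv.subtypeUnivEquiv fun _ => trivial)
  have hpos : 0 < Nat.card (LinearMap.ker l) := Nat.card_pos
  rw [h5] at h1
  rw [h4] at h3
  apply Nat.eq_of_mul_eq_mul_right hpos
  rw [h1]
  rw [h3]
  ring

/-- the set `T` -/
def TT (H : HZ S a D l) (t : V) : Prop := Sl S a t ∧ K0 H t ≤ LinearMap.ker l

/-- the set `A` -/
def AA (H : HZ S a D l) (r : V) : Prop := ¬ Sl S a r ∧ ¬ K0 H r ≤ LinearMap.ker l

theorem K1_out [Finite V] (H : HZ S a D l) {u : V} (hu : Sl S a u) :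
    ∃ v : D, v ∈ K1 H u ∧ l v ≠ 0 := by
  obtain ⟨v0, hv0⟩ := H.l0
  obtain ⟨w, hw⟩ := hu
  have hwD : w ∈ D := H.sD ⟨u, by rw [S.symm, hw]⟩
  obtain ⟨x, h1, h2⟩ := lk1 H ⟨w, hw⟩ 1 0 v0 ⟨w, hwD⟩ (by
    rw [tw_t H rfl, tw_0, zero_add, H.tau1 hv0]
    show a = S.q w u
    rw [S.symm, hw])
  rw [tw_t H rfl, tw_t H rfl, zero_add, zero_add, H.tau1 hv0] at h1
  rw [tw_t H rfl, tw_0, zero_add, H.tau1 hv0] at h2
  refine ⟨x, (mem_K1 H).2 (h2.trans h1.symm), fun h => ?_⟩
  rw [tau0' h] at h1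
  exact H.az h1.symm

theorem K1_slot [Finite V] (H : HZ S a D l) {u : V} (hu : Sl S a u) :
    Nat.card (K1 H u) = 2 * Nat.card (K0 H u ⊓ LinearMap.ker l : Submodule (ZMod 2) D) := by
  rw [← K_inf, card_out]
  intro h
  obtain ⟨v, h1, h2⟩ := K1_out H hu
  exact h2 (h h1)

theorem K1_non [Finite V] (H : HZ S a D l) {u : V} (hu : ¬ Sl S a u) :
    Nat.card (K1 H u) = Nat.card (K0 H u ⊓ LinearMap.ker l : Submodule (ZMod 2) D) := by
  rw [← K_inf, card_in]
  intro v hv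
  rw [LinearMap.mem_ker]
  by_contra h
  rw [mem_K1, H.tau1 h] at hv
  exact hu ⟨v, by rw [S.symm, hv]⟩

theorem pos0 [Finite V] (H : HZ S a D l) (u : V) :
    0 < Nat.card (K0 H u ⊓ LinearMap.ker l : Submodule (ZMod 2) D) := Nat.card_pos

theorem TT_iff [Finite V] (H : HZ S a D l) (u : V) :
    TT H u ↔ Nat.card (K1 H u) = 2 * Nat.card (K0 H u) := by
  have hp := pos0 H u
  unfold TT
  by_cases h1 : Sl S a u <;> by_cases h2 : K0 H u ≤ LinearMap.ker l
  · rw [K1_slot H h1, card_in h2]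
    exact ⟨fun _ => rfl, fun _ => ⟨h1, h2⟩⟩
  · rw [K1_slot H h1, card_out h2]
    exact ⟨fun h => absurd h.2 h2, fun h => by omega⟩
  · rw [K1_non H h1, card_in h2]
    exact ⟨fun h => absurd h.1 h1, fun h => by omega⟩
  · rw [K1_non H h1, card_out h2]
    exact ⟨fun h => absurd h.1 h1, fun h => by omega⟩

theorem AA_iff [Finite V] (H : HZ S a D l) (u : V) :
    AA H u ↔ Nat.card (K0 H u) = 2 * Nat.card (K1 H u) := by
  have hp := pos0 H u
  unfold AA
  by_cases h1 : Sl S a u <;> by_cases h2 : K0 H u ≤ LinearMap.ker l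
  · rw [K1_slot H h1, card_in h2]
    exact ⟨fun h => absurd h1 h.1, fun h => by omega⟩
  · rw [K1_slot H h1, card_out h2]
    exact ⟨fun h => absurd h1 h.1, fun h => by omega⟩
  · rw [K1_non H h1, card_in h2]
    exact ⟨fun h => absurd h2 h.2, fun h => by omega⟩
  · rw [K1_non H h1, card_out h2]
    exact ⟨fun _ => rfl, fun _ => ⟨h1, h2⟩⟩

theorem no_iff [Finite V] (H : HZ S a D l) {u : V} (h3 : ¬ TT H u) (h4 : ¬ AA H u) :
    Nat.card (K1 H u) = Nat.card (K0 H u) := by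
  unfold TT at h3
  unfold AA at h4
  by_cases h1 : Sl S a u <;> by_cases h2 : K0 H u ≤ LinearMap.ker l
  · exact absurd ⟨h1, h2⟩ h3
  · rw [K1_slot H h1, card_out h2]
  · rw [K1_non H h1, card_in h2]
  · exact absurd ⟨h1, h2⟩ h4

/-! ### (4) -/

theorem tD [Finite V] (H : HZ S a D l) {t : V} (ht : Sl S a t) (v : D) :
    ∃ x : D, (tw H).q x (0, t) = (tw H).q v (1, 0) := by
  rw [tw_t H rfl, zero_add]
  by_cases h : l v = 0
  · exact ⟨0, by rw [tau0' h, tw_0]; exact zq _⟩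
  · obtain ⟨w, hw⟩ := ht
    have hwD : w ∈ D := H.sD ⟨t, by rw [S.symm, hw]⟩
    refine ⟨⟨w, hwD⟩, ?_⟩
    rw [H.tau1 h, tw_0]
    show S.q w t = a
    rw [S.symm, hw]

theorem cm0 (H : HZ S a D l) {t : V} {v : D} {f f' : ZMod 2 × V}
    (h : ∃ x : D, (tw H).q x (0, t) = (tw H).q v f)
    (h' : ∃ x : D, (tw H).q x (0, t) = (tw H).q v f') :
    ∃ x : D, (tw H).q x (0, t) = (tw H).q v (f + f') := by
  obtain ⟨x, hx⟩ := h
  obtain ⟨x', hx'⟩ := h'
  rw [tw_0, tw_q] at hx hx'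
  obtain ⟨y, hy, h1⟩ := cm_inner D ⟨x, x.2, hx⟩ ⟨x', x'.2, hx'⟩
  refine ⟨⟨y, hy⟩, ?_⟩
  rw [tw_0, tw_q]
  show S.q y t = _
  rw [h1]
  congr 1
  rw [Prod.snd_add, Prod.fst_add, add_smul]
  abel

theorem rat [Finite V] (H : HZ S a D l) {t : V} (ht : TT H t) (p : V) :
    Nat.card (K1 H p) * Nat.card (K1 H (p + t)) = Nat.card (K0 H p) * Nat.card (K0 H (p + t)) := by
  have := Fintype.ofFinite V
  have := Fintype.ofFinite D
  have e1 : Nat.card (K1 H (p + t)) = Nat.card (Kf (tw H) ((1, p) + (0, t))) := by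
    rw [Prod.mk_add_mk, add_zero]
  have e0 : Nat.card (K0 H (p + t)) = Nat.card (Kf (tw H) ((0, p) + (0, t))) := by
    rw [Prod.mk_add_mk, add_zero]
  rw [e1, e0]
  show Nat.card (Kf (tw H) (1, p)) * _ = Nat.card (Kf (tw H) (0, p)) * _
  rw [card_eq (tw H) (lk1 H ht.1 1 p), card_eq (tw H) (lk1 H ht.1 0 p)]
  have h1 : Kf (tw H) (1, p) ⊓ Kf (tw H) (0, t) = Kf (tw H) (0, p) ⊓ Kf (tw H) (0, t) := by
    ext v
    rw [Submodule.mem_inf, Submodule.mem_inf]
    refine and_congr_left fun h => ?_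
    have h2 : l v = 0 := ht.2 h
    rw [mem_Kf, mem_Kf, tw_H H h2, tw_H H h2]
  have h2 : ∀ v : D, (∃ x, (tw H).q x (0, t) = (tw H).q v (1, p)) ↔
      ∃ x, (tw H).q x (0, t) = (tw H).q v (0, p) := by
    intro v
    constructor
    · intro h
      have := cm0 H h (tD H ht.1 v)
      rwa [Prod.mk_add_mk, add_zero, show (1 : ZMod 2) + 1 = 0 from rfl] at this
    · intro h
      have := cm0 H h (tD H ht.1 v)
      rwa [Prod.mk_add_mk, add_zero, zero_add] at this
  rw [h1]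
  congr 1
  exact Finset.sum_congr rfl fun v _ => by rw [propext (h2 v)]

theorem cpos [Finite V] (K : Submodule (ZMod 2) D) : 0 < Nat.card K := Nat.card_pos

theorem T_of_A [Finite V] (H : HZ S a D l) {t p : V} (ht : TT H t) (h : AA H p) :
    TT H (p + t) := by
  have h1 := rat H ht p
  rw [AA_iff] at h
  rw [TT_iff]
  have hp := cpos (K1 H p)
  rw [h] at h1
  apply Nat.eq_of_mul_eq_mul_left hp
  rw [h1]
  ring

theorem A_of_T [Finite V] (H : HZ S a D l) {t p : V} (ht : TT H t) (h : TT H p) :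
    AA H (p + t) := by
  have h1 := rat H ht p
  rw [TT_iff] at h
  rw [AA_iff]
  have hp := cpos (K0 H p)
  rw [h] at h1
  apply Nat.eq_of_mul_eq_mul_left hp
  rw [← h1]
  ring

theorem A_zero (H : HZ S a D l) : AA H 0 := by
  refine ⟨?_, ?_⟩
  · rintro ⟨w, hw⟩
    rw [zq] at hw
    exact H.az hw.symm
  · intro h
    obtain ⟨v0, hv0⟩ := H.l0
    exact hv0 (h ((mem_K0 H).2 (q0 _)))

theorem not_both (H : HZ S a D l) {p : V} (h : TT H p) : ¬ AA H p := fun h' => h'.1 h.1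

theorem A_add [Finite V] (H : HZ S a D l) {t r r' : V} (ht : TT H t) (h : AA H r)
    (h' : AA H r') : AA H (r + r') := by
  have h1 := T_of_A H ht h
  have h2 := T_of_A H ht h'
  have h3 := A_of_T H h2 h1
  rwa [show r + t + (r' + t) = r + r' by
    rw [show r + t + (r' + t) = r + r' + t + t by abel, xyy]] at h3

/-! ### (3), (5) -/

theorem E2 [Fintype V] [Fintype D] (H : HZ S a D l) :
    ∑ p : V, Nat.card (K1 H p) ^ 2 = ∑ p : V, Nat.card (K0 H p) ^ 2 := by
  have h := shiftD H fun v w b c => b = (tw H).z ∧ c = (tw H).z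
  have h1 : ∀ e : ZMod 2, ∀ p : V, Nat.card (Kf (tw H) (e, p)) ^ 2 =
      ∑ v : D, ∑ w : D, ind ((tw H).q v (e, p) = (tw H).z ∧ (tw H).q w (e, p) = (tw H).z) := by
    intro e p
    rw [sq, natCard_eq, Finset.sum_mul_sum]
    refine Finset.sum_congr rfl fun v _ => Finset.sum_congr rfl fun w _ => ?_
    rw [← ind_and]
    rfl
  simp only [K1, K0, h1]
  exact h

theorem E2' [Fintype V] [Fintype D] (H : HZ S a D l) :
    ∑ p : V, ind (TT H p) * Nat.card (K1 H p) ^ 2 = ∑ p : V, ind (AA H p) * Nat.card (K0 H p) ^ 2 := by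
  have h1 : ∀ p : V, 4 * Nat.card (K1 H p) ^ 2 + 3 * (ind (AA H p) * Nat.card (K0 H p) ^ 2) =
      4 * Nat.card (K0 H p) ^ 2 + 3 * (ind (TT H p) * Nat.card (K1 H p) ^ 2) := by
    intro p
    by_cases hT : TT H p
    · have h2 : ind (AA H p) = 0 := by unfold ind; rw [if_neg (not_both H hT)]
      have h3 : ind (TT H p) = 1 := by unfold ind; rw [if_pos hT]
      rw [h2, h3, (TT_iff H p).1 hT]
      ring
    · by_cases hA : AA H p
      · have h2 : ind (AA H p) = 1 := by unfold ind; rw [if_pos hA]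
        have h3 : ind (TT H p) = 0 := by unfold ind; rw [if_neg hT]
        rw [h2, h3, (AA_iff H p).1 hA]
        ring
      · have h2 : ind (AA H p) = 0 := by unfold ind; rw [if_neg hA]
        have h3 : ind (TT H p) = 0 := by unfold ind; rw [if_neg hT]
        rw [h2, h3, no_iff H hT hA]
  have h2 := Finset.sum_congr (rfl : (Finset.univ : Finset V) = Finset.univ)
    fun p _ => h1 p
  rw [Finset.sum_add_distrib, Finset.sum_add_distrib, ← Finset.mul_sum, ← Finset.mul_sum,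
    ← Finset.mul_sum, ← Finset.mul_sum, E2] at h2
  omega

end Pool.Agent.ZPL53
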