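import Pool.Agent.ZPC2.Defs
import Pool.Agent.HAS82.Main

/-!
# The positivity argument of Theorem Hasse for a set valued map, all pairs of maps linked

`W : BD X M Q`: the elements of `M` are maps on `X`.  If all pairs of maps are linked, a functional
on `M` which is nowhere locally inner is not zero at some map vanishing on `X`.
-/

set_option autoImplicit false
set_option linter.unusedSectionVars false

namespace Pool.Agent.ZPL53

open Pool.Agent.ZPC2
open Pool.Agent.HAS82 (ind ind_and natCard_eq card_mul card_mono sg sg_add sg_zero T T_pos T_zero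
  T_nonneg conv_ineq)
open scoped Classical
open Finset

variable {X M Q : Type} [AddCommGroup X] [Module (ZMod 2) X] [AddCommGroup M] [Module (ZMod 2) M]
  (W : BD X M Q)

/-- the kernel of a map -/
def Kf (f : M) : Submodule (ZMod 2) X where
  carrier := {x | W.q x f = W.z}
  add_mem' := fun ha hb => BD.l0 ha hb
  zero_mem' := W.zq f
  smul_mem' := fun r a ha => by
    rcases smul_cases r a with h | h
    · rw [h]
      exact W.zq f
    · rw [h]
      exact ha

theorem mem_Kf {f : M} {x : X} : x ∈ Kf W f ↔ W.q x f = W.z := Iff.rfl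

theorem inf_Kf (f u : M) : Kf W f ⊓ Kf W (f + u) = Kf W f ⊓ Kf W u := by
  ext v
  rw [Submodule.mem_inf, Submodule.mem_inf, mem_Kf, mem_Kf, mem_Kf]
  constructor
  · rintro ⟨h1, h2⟩
    refine ⟨h1, ?_⟩
    have := BD.rc h1 h2
    rwa [ab] at this
  · rintro ⟨h1, h2⟩
    exact ⟨h1, BD.r0 h1 h2⟩

theorem sup_Kf_le (f u : M) : ∀ v ∈ Kf W f ⊔ Kf W (f + u), ∃ x, W.q x u = W.q v f := by
  intro v hv
  obtain ⟨x, hx, y, hy, rfl⟩ := Submodule.mem_sup.1 hv
  rw [mem_Kf] at hx hy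
  refine ⟨y, ?_⟩
  have h1 : W.q (x + y) f = W.q y f := BD.l0' hx rfl
  rw [h1]
  exact ((W.qr y f u).2 hy).symm

theorem sup_Kf_iff {f u : M}
    (hlk : ∀ v w, W.q v f = W.q w u → ∃ x, W.q x f = W.q v f ∧ W.q x u = W.q v f) (v : X) :
    v ∈ Kf W f ⊔ Kf W (f + u) ↔ ∃ x, W.q x u = W.q v f := by
  refine ⟨sup_Kf_le W f u v, ?_⟩
  rintro ⟨x, hx⟩
  obtain ⟨y, h1, h2⟩ := hlk v x hx.symm
  have : v = (v + y) + y := by rw [aa]
  rw [this]
  refine Submodule.add_mem_sup (BD.lc rfl h1) ?_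
  rw [mem_Kf]
  exact BD.rc h1 h2

/-- linkage of two maps, from the equality of sizes -/
theorem lk_of_card [Fintype X] {f u : M}
    (h : Nat.card (Kf W f) * Nat.card (Kf W (f + u)) =
      (∑ v : X, ind (∃ x, W.q x u = W.q v f)) * Nat.card (Kf W f ⊓ Kf W u : Submodule (ZMod 2) X)) :
    ∀ v w, W.q v f = W.q w u → ∃ x, W.q x f = W.q v f ∧ W.q x u = W.q v f := by
  have hpos : 0 < Nat.card (Kf W f ⊓ Kf W u : Submodule (ZMod 2) X) := Nat.card_pos
  rw [card_mul, inf_Kf] at h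
  have h1 := Nat.eq_of_mul_eq_mul_right hpos h
  rw [natCard_eq, Finset.sum_eq_sum_iff_of_le fun v _ => ?_] at h1
  · intro v w hvw
    have h2 := h1 v (Finset.mem_univ _)
    unfold ind at h2
    rw [if_pos (⟨w, hvw.symm⟩ : ∃ x, W.q x u = W.q v f)] at h2
    have h3 : v ∈ Kf W f ⊔ Kf W (f + u) := by
      by_contra hc
      rw [if_neg hc] at h2
      omega
    obtain ⟨x, hx, y, hy, hxy⟩ := Submodule.mem_sup.1 h3
    rw [mem_Kf] at hx hy
    have h4 : W.q y f = W.q v f := by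
      rw [← hxy]
      exact (BD.l0' hx rfl).symm
    exact ⟨y, h4, by rw [← h4]; exact ((W.qr y f u).2 hy).symm⟩
  · unfold ind
    by_cases hv : v ∈ Kf W f ⊔ Kf W (f + u)
    · rw [if_pos hv, if_pos (sup_Kf_le W f u v hv)]
    · rw [if_neg hv]
      exact Nat.zero_le _

theorem card_le [Fintype X] (f u : M) : Nat.card (Kf W f) * Nat.card (Kf W (f + u)) ≤
    (∑ v : X, ind (∃ x, W.q x u = W.q v f)) *
      Nat.card (Kf W f ⊓ Kf W u : Submodule (ZMod 2) X) := by
  rw [card_mul, inf_Kf]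
  refine Nat.mul_le_mul_right _ ?_
  rw [natCard_eq]
  refine Finset.sum_le_sum fun v _ => ?_
  unfold ind
  by_cases hv : v ∈ Kf W f ⊔ Kf W (f + u)
  · rw [if_pos hv, if_pos (sup_Kf_le W f u v hv)]
  · rw [if_neg hv]
    exact Nat.zero_le _

theorem card_eq [Fintype X] {f u : M}
    (hlk : ∀ v w, W.q v f = W.q w u → ∃ x, W.q x f = W.q v f ∧ W.q x u = W.q v f) :
    Nat.card (Kf W f) * Nat.card (Kf W (f + u)) =
      (∑ v : X, ind (∃ x, W.q x u = W.q v f)) *
        Nat.card (Kf W f ⊓ Kf W u : Submodule (ZMod 2) X) := by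
  rw [card_mul, inf_Kf]
  congr 1
  rw [natCard_eq]
  refine Finset.sum_congr rfl fun v _ => ?_
  rw [propext (sup_Kf_iff W hlk v)]

theorem rhs_sum [Fintype X] (f u : M) : (∑ v : X, ind (∃ x, W.q x u = W.q v f)) *
    Nat.card (Kf W f ⊓ Kf W u : Submodule (ZMod 2) X) =
    ∑ v : X, ∑ w : X, ind ((∃ x, W.q x u = W.q v f) ∧ (W.q w f = W.z ∧ W.q w u = W.z)) := by
  rw [natCard_eq, Finset.sum_mul_sum]
  refine Finset.sum_congr rfl fun v _ => Finset.sum_congr rfl fun w _ => ?_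
  rw [← ind_and]
  rfl

theorem lhs_sum [Fintype X] (f u : M) : Nat.card (Kf W f) * Nat.card (Kf W (f + u)) =
    ∑ v : X, ∑ w : X, ind (W.q v f = W.z ∧ W.q w (f + u) = W.z) := by
  rw [natCard_eq, natCard_eq, Finset.sum_mul_sum]
  refine Finset.sum_congr rfl fun v _ => Finset.sum_congr rfl fun w _ => ?_
  rw [← ind_and]
  rfl

/-- the size of the kernel -/
noncomputable def kap (f : M) : ℤ := (Nat.card (Kf W f) : ℤ)

variable {W}

theorem kap_sum [Fintype X] (f : M) : kap W f = ∑ v : X, (ind (f ∈ Wa W v) : ℤ) := by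
  unfold kap
  rw [natCard_eq, Nat.cast_sum]
  rfl

theorem kap_hat [Fintype X] [Fintype M] (Λ : Module.Dual (ZMod 2) M) :
    ∑ f : M, sg (Λ f) * kap W f = ∑ v : X, T Λ (Wa W v) := by
  simp only [kap_sum, Finset.mul_sum]
  rw [Finset.sum_comm]
  rfl

/-- the maps with a value of `u` at `v` -/
def CM (hcm : ∀ (u : M) (v : X) (f f' : M), (∃ x, W.q x u = W.q v f) →
    (∃ x, W.q x u = W.q v f') → ∃ x, W.q x u = W.q v (f + f')) (u : M) (v : X) :
    Submodule (ZMod 2) M where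
  carrier := {f | ∃ x, W.q x u = W.q v f}
  add_mem' := fun h h' => hcm u v _ _ h h'
  zero_mem' := ⟨0, by rw [W.zq, W.q0]⟩
  smul_mem' := by
    rintro c f ⟨x, h⟩
    rcases smul_cases c f with e | e
    · rw [e]
      exact ⟨0, by rw [W.zq, W.q0]⟩
    · rw [e]
      exact ⟨x, h⟩

variable (hlk : ∀ (f u : M) (v w : X), W.q v f = W.q w u →
    ∃ x, W.q x f = W.q v f ∧ W.q x u = W.q v f)
  (hcm : ∀ (u : M) (v : X) (f f' : M), (∃ x, W.q x u = W.q v f) →
    (∃ x, W.q x u = W.q v f') → ∃ x, W.q x u = W.q v (f + f'))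

include hlk hcm in
theorem kap_pd [Fintype X] [Fintype M] (u : M) (Λ : Module.Dual (ZMod 2) M) :
    0 ≤ ∑ f : M, sg (Λ f) * (kap W f * kap W (f + u)) := by
  have h1 : ∀ f : M, kap W f * kap W (f + u) = ∑ v : X, ∑ w : X,
      (ind (W.q w u = W.z) : ℤ) * (ind (f ∈ CM hcm u v ⊓ Wa W w) : ℤ) := by
    intro f
    have h3 : kap W f * kap W (f + u) =
        ((Nat.card (Kf W f) * Nat.card (Kf W (f + u)) : ℕ) : ℤ) := by
      unfold kap
      push_cast
      rfl
    rw [h3, card_eq W (hlk f u), rhs_sum]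
    push_cast
    refine Finset.sum_congr rfl fun v _ => Finset.sum_congr rfl fun w _ => ?_
    rw [← Nat.cast_mul, ← ind_and]
    congr 2
    apply propext
    constructor
    · rintro ⟨h4, h5, h6⟩
      exact ⟨h6, h4, h5⟩
    · rintro ⟨h6, h4, h5⟩
      exact ⟨h4, h5, h6⟩
  have h2 : ∑ f : M, sg (Λ f) * (kap W f * kap W (f + u)) = ∑ v : X, ∑ w : X,
      (ind (W.q w u = W.z) : ℤ) * T Λ (CM hcm u v ⊓ Wa W w) := by
    simp only [h1, Finset.mul_sum]
    rw [Finset.sum_comm]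
    refine Finset.sum_congr rfl fun v _ => ?_
    rw [Finset.sum_comm]
    refine Finset.sum_congr rfl fun w _ => ?_
    unfold T
    rw [Finset.mul_sum]
    refine Finset.sum_congr rfl fun ψ _ => ?_
    ring
  rw [h2]
  exact Finset.sum_nonneg fun v _ => Finset.sum_nonneg fun w _ =>
    mul_nonneg (Int.natCast_nonneg _) (T_nonneg _ _)

include hlk hcm in
/-- the functionals killing the kernel of some evaluation form a group -/
theorem supp_add [Finite X] [Finite M] {a b : Module.Dual (ZMod 2) M}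
    (ha : ∃ v : X, ∀ f ∈ Wa W v, a f = 0) (hb : ∃ v : X, ∀ f ∈ Wa W v, b f = 0) :
    ∃ v : X, ∀ f ∈ Wa W v, (a + b) f = 0 := by
  have := Fintype.ofFinite X
  have := Fintype.ofFinite M
  have hpos : ∀ c : Module.Dual (ZMod 2) M, (∃ v : X, ∀ f ∈ Wa W v, c f = 0) →
      0 < ∑ f : M, sg (c f) * kap W f := by
    rintro c ⟨v, hv⟩
    rw [kap_hat]
    exact Finset.sum_pos' (fun w _ => T_nonneg _ _) ⟨v, Finset.mem_univ _, T_pos hv⟩
  by_contra hcon
  have h1 : ∑ f : M, sg ((a + b) f) * kap W f = 0 := by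
    rw [kap_hat]
    refine Finset.sum_eq_zero fun v _ => T_zero fun h => hcon ⟨v, h⟩
  have h2 := conv_ineq (kap W) (kap_pd hlk hcm) a b
  rw [h1, zero_mul] at h2
  have h3 := mul_pos (hpos a ha) (hpos b hb)
  linarith

include hlk hcm in
/-- **the end**: a functional which is nowhere locally inner is not zero at some map vanishing
everywhere -/
theorem end_thm [Finite X] [Finite M] (Λ : Module.Dual (ZMod 2) M)
    (h : ∀ v : X, ∃ m, W.q v m = W.z ∧ Λ m ≠ 0) : ∃ m, (∀ v : X, W.q v m = W.z) ∧ Λ m ≠ 0 := by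
  let S : Submodule (ZMod 2) (Module.Dual (ZMod 2) M) :=
    { carrier := {a | ∃ v : X, ∀ f ∈ Wa W v, a f = 0}
      add_mem' := fun ha hb => supp_add hlk hcm ha hb
      zero_mem' := ⟨0, fun f _ => rfl⟩
      smul_mem' := by
        rintro c a ⟨v, hv⟩
        exact ⟨v, fun f h => by rw [LinearMap.smul_apply, hv f h, smul_zero]⟩ }
  by_contra hcon
  push Not at hcon
  have h1 : Λ ∈ S := by
    rw [← Subspace.dualCoannihilator_dualAnnihilator_eq (W := S),
      Submodule.mem_dualAnnihilator]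
    intro m hm
    refine hcon m fun v => ?_
    by_contra hv
    have h2 : m ∉ Wa W v := hv
    obtain ⟨g, h4, h5⟩ := Submodule.exists_le_ker_of_notMem h2
    refine h4 ((Submodule.mem_dualCoannihilator m).1 hm g ⟨v, fun f hf => ?_⟩)
    exact LinearMap.mem_ker.1 (h5 hf)
  obtain ⟨v, hv⟩ := h1
  obtain ⟨m, h2, h3⟩ := h v
  exact h3 (hv m h2)

end Pool.Agent.ZPL53
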