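import Pool.Agent.ZPL53.Cls

/-!
# Theorem Z+ (note 3284 of helper13), set valued: steps (5)-(7)
-/

set_option autoImplicit false
set_option linter.unusedSectionVars false

namespace Pool.Agent.ZPL53

open Pool.Agent.ZPC2
open Pool.Agent.Helper58.PLine (QData)
open Pool.Agent.REL34 (Sl lk ss xxy xyy rc r0 lc l0 ladd q0 zq Sl.co)
open Pool.Agent.HAS82 (ind ind_and natCard_eq card_mul card_mono)
open scoped Classical
open Finset

variable {V Q : Type} [AddCommGroup V] [Module (ZMod 2) V] {S : QData V Q} {a : Q}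
  {D : Submodule (ZMod 2) V} {l : D →ₗ[ZMod 2] ZMod 2}

theorem sumT [Fintype V] [Fintype D] (H : HZ S a D l) (P : V → Prop) (e : ZMod 2) :
    ∑ p : V, ind (P p) * Nat.card (Kf (tw H) (e, p)) ^ 2 =
      ∑ v : D, ∑ w : D, ∑ p : V, ind (P p ∧ v ∈ Kf (tw H) (e, p) ∧ w ∈ Kf (tw H) (e, p)) := by
  have h1 : ∀ p : V, ind (P p) * Nat.card (Kf (tw H) (e, p)) ^ 2 =
      ∑ v : D, ∑ w : D, ind (P p ∧ v ∈ Kf (tw H) (e, p) ∧ w ∈ Kf (tw H) (e, p)) := by
    intro p
    rw [sq, natCard_eq, Finset.sum_mul_sum, Finset.mul_sum]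
    refine Finset.sum_congr rfl fun v _ => ?_
    rw [Finset.mul_sum]
    refine Finset.sum_congr rfl fun w _ => ?_
    rw [ind_and, ind_and]
  simp only [h1]
  rw [Finset.sum_comm]
  refine Finset.sum_congr rfl fun v _ => ?_
  rw [Finset.sum_comm]

/-- (5): all pairs of points of `D` are inner by an element of `T` -/
theorem pairP [Finite V] (H : HZ S a D l) (v w : D) :
    ∃ t, TT H t ∧ v ∈ K1 H t ∧ w ∈ K1 H t := by
  have := Fintype.ofFinite V
  have := Fintype.ofFinite D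
  have h1 := E2' H
  rw [sumT H (TT H) 1, sumT H (AA H) 0] at h1
  -- termwise inequality
  have hle : ∀ v w : D, ∑ p : V, ind (TT H p ∧ v ∈ K1 H p ∧ w ∈ K1 H p) ≤
      ∑ p : V, ind (AA H p ∧ v ∈ K0 H p ∧ w ∈ K0 H p) := by
    intro v w
    by_cases hex : ∃ t, TT H t ∧ v ∈ K1 H t ∧ w ∈ K1 H t
    · obtain ⟨t, ht, hv, hw⟩ := hex
      have hsh : ∑ p : V, ind (AA H (p + t) ∧ v ∈ K0 H (p + t) ∧ w ∈ K0 H (p + t)) =
          ∑ p : V, ind (AA H p ∧ v ∈ K0 H p ∧ w ∈ K0 H p) :=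
        Fintype.sum_equiv (Equiv.addRight t) _ _ fun p => rfl
      rw [← hsh]
      refine Finset.sum_le_sum fun p _ => ?_
      by_cases hp : TT H p ∧ v ∈ K1 H p ∧ w ∈ K1 H p
      · obtain ⟨h2, h3, h4⟩ := hp
        have h5 : AA H (p + t) ∧ v ∈ K0 H (p + t) ∧ w ∈ K0 H (p + t) := by
          refine ⟨A_of_T H ht h2, ?_, ?_⟩
          · rw [mem_K0]
            rw [mem_K1] at h3 hv
            exact rc h3 hv
          · rw [mem_K0]
            rw [mem_K1] at h4 hw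
            exact rc h4 hw
        show ind _ ≤ ind _
        unfold ind
        rw [if_pos h5]
        split <;> omega
      · show ind _ ≤ ind _
        unfold ind
        rw [if_neg hp]
        exact Nat.zero_le _
    · have h2 : ∑ p : V, ind (TT H p ∧ v ∈ K1 H p ∧ w ∈ K1 H p) = 0 := by
        refine Finset.sum_eq_zero fun p _ => ?_
        unfold ind
        rw [if_neg fun h => hex ⟨p, h⟩]
      rw [h2]
      exact Nat.zero_le _
  have h2 : ∑ p : V, ind (TT H p ∧ v ∈ K1 H p ∧ w ∈ K1 H p) =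
      ∑ p : V, ind (AA H p ∧ v ∈ K0 H p ∧ w ∈ K0 H p) := by
    have h3 := (Finset.sum_eq_sum_iff_of_le fun v _ =>
      Finset.sum_le_sum fun w _ => hle v w).1 h1 v (Finset.mem_univ _)
    exact (Finset.sum_eq_sum_iff_of_le fun w _ => hle v w).1 h3 w (Finset.mem_univ _)
  by_contra hcon
  have h3 : ∑ p : V, ind (TT H p ∧ v ∈ K1 H p ∧ w ∈ K1 H p) = 0 := by
    refine Finset.sum_eq_zero fun p _ => ?_
    unfold ind
    rw [if_neg fun h => hcon ⟨p, h⟩]
  rw [h3] at h2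
  have h4 := (Finset.sum_eq_zero_iff.1 h2.symm) 0 (Finset.mem_univ _)
  unfold ind at h4
  rw [if_pos ⟨A_zero H, (mem_K0 H).2 (q0 _), (mem_K0 H).2 (q0 _)⟩] at h4
  exact one_ne_zero h4

theorem exT [Finite V] (H : HZ S a D l) : ∃ t, TT H t := by
  obtain ⟨t, h, -, -⟩ := pairP H 0 0
  exact ⟨t, h⟩

/-- the group of maps -/
def MM [Finite V] (H : HZ S a D l) : Submodule (ZMod 2) (ZMod 2 × V) where
  carrier := {f | (f.1 = 0 ∧ AA H f.2) ∨ (f.1 = 1 ∧ TT H f.2)}
  add_mem' := by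
    rintro ⟨e, p⟩ ⟨e', p'⟩ h h'
    obtain ⟨t, ht⟩ := exT H
    rcases h with ⟨h1, h2⟩ | ⟨h1, h2⟩ <;> rcases h' with ⟨h3, h4⟩ | ⟨h3, h4⟩ <;>
      simp only at h1 h2 h3 h4 <;> subst h1 <;> subst h3
    · exact Or.inl ⟨rfl, A_add H ht h2 h4⟩
    · refine Or.inr ⟨rfl, ?_⟩
      exact T_of_A H h4 h2
    · refine Or.inr ⟨rfl, ?_⟩
      show TT H (p + p')
      rw [add_comm]
      exact T_of_A H h2 h4
    · exact Or.inl ⟨rfl, A_of_T H h4 h2⟩
  zero_mem' := Or.inl ⟨rfl, A_zero H⟩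
  smul_mem' := by
    intro c f h
    rcases smul_cases c f with e | e
    · rw [e]
      exact Or.inl ⟨rfl, A_zero H⟩
    · rw [e]
      exact h

/-- the maps of `MM` as a set valued map -/
noncomputable def wm [Finite V] (H : HZ S a D l) : BD D (MM H) Q where
  q v f := (tw H).q v f.1
  z := S.z
  qr v f g := (tw H).qr v f.1 g.1
  ql v w f := (tw H).ql v w f.1

/-- the values of `(1, t)` are the values of `t` on the kernel of `l` -/
theorem toH [Finite V] (H : HZ S a D l) {t : V} (ht : TT H t) (v : D) :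
    ∃ h : D, l h = 0 ∧ S.q h t = (tw H).q v (1, t) := by
  by_cases hv : l v = 0
  · exact ⟨v, hv, by rw [tw_H H hv]⟩
  · obtain ⟨n, h1, h2⟩ := K1_out H ht.1
    refine ⟨n + v, l_add h2 hv, ?_⟩
    rw [← tw_H H (l_add h2 hv) 1 t]
    exact BD.l0' h1 rfl

/-- linkage of `(1, t)` and an inner map, the value of the inner map being arbitrary -/
theorem lkT [Finite V] (H : HZ S a D l) {t : V} (ht : TT H t) {r : V} {v : D} {w : V}
    (h : (tw H).q v (1, t) = S.q w r) :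
    ∃ x : D, l x = 0 ∧ (tw H).q x (1, t) = (tw H).q v (1, t) ∧
      S.q x r = (tw H).q v (1, t) := by
  obtain ⟨h0, h1, h2⟩ := toH H ht v
  have h3 : S.q t h0 = S.q r w := by rw [S.symm, h2, h, S.symm]
  obtain ⟨y, h4, h5⟩ := S.link _ _ _ _ h3
  have h6 : (h0 : V) + y ∈ D := H.aD ht.1 ((S.add _ _ _).1 h4)
  have h7 : y ∈ D := (D.add_mem_iff_right h0.2).1 h6
  have h8 : l (h0 + ⟨y, h7⟩) = 0 := by
    have : h0 + (⟨y, h7⟩ : D) ∈ K0 H t := by
      rw [mem_K0, S.symm]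
      exact (S.add _ _ _).1 h4
    exact ht.2 this
  have h9 : l ⟨y, h7⟩ = 0 := by
    rw [map_add, h1, zero_add] at h8
    exact h8
  refine ⟨⟨y, h7⟩, h9, ?_, ?_⟩
  · rw [tw_H H h9]
    show S.q y t = _
    rw [S.symm, ← h4, S.symm, h2]
  · show S.q y r = _
    rw [S.symm, ← h5, ← h3, S.symm, h2]

/-- linkage of `(1, t)` and any map of `MM` -/
theorem lk_T [Finite V] (H : HZ S a D l) {t : V} (ht : TT H t) (u : MM H) (v w : D)
    (h : (tw H).q v (1, t) = (tw H).q w u.1) :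
    ∃ x : D, (tw H).q x (1, t) = (tw H).q v (1, t) ∧ (tw H).q x u.1 = (tw H).q v (1, t) := by
  obtain ⟨⟨e, r⟩, hu⟩ := u
  show ∃ x : D, _ ∧ (tw H).q x (e, r) = _
  have h' : (tw H).q v (1, t) = (tw H).q w (e, r) := h
  rcases hu with ⟨h1, h2⟩ | ⟨h1, h2⟩ <;> simp only at h1 h2 <;> subst h1
  · rw [tw_0] at h'
    obtain ⟨x, h3, h4, h5⟩ := lkT H ht h'
    exact ⟨x, h4, by rw [tw_0, h5]⟩
  · obtain ⟨w', h3, h4⟩ := toH H h2 w
    obtain ⟨x, h5, h6, h7⟩ := lkT H ht (h'.trans h4.symm)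
    exact ⟨x, h6, by rw [tw_H H h5, h7]⟩

theorem cmM [Finite V] (H : HZ S a D l) (u : MM H) (v : D) (f f' : MM H)
    (h : ∃ x, (wm H).q x u = (wm H).q v f) (h' : ∃ x, (wm H).q x u = (wm H).q v f') :
    ∃ x, (wm H).q x u = (wm H).q v (f + f') := by
  obtain ⟨⟨e, r⟩, hu⟩ := u
  change ∃ x, (tw H).q x (e, r) = (tw H).q v f.1 at h
  change ∃ x, (tw H).q x (e, r) = (tw H).q v f'.1 at h'
  change ∃ x, (tw H).q x (e, r) = (tw H).q v (f.1 + f'.1)
  rcases hu with ⟨h1, h2⟩ | ⟨h1, h2⟩ <;> simp only at h1 h2 <;> subst h1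
  · exact cm0 H h h'
  · have hs : f.1.2 + f.1.1 • tau S a l v + (f'.1.2 + f'.1.1 • tau S a l v) =
        (f.1 + f'.1).2 + (f.1 + f'.1).1 • tau S a l v := by
      rw [Prod.snd_add, Prod.fst_add, add_smul]
      abel
    obtain ⟨x, hx⟩ := h
    obtain ⟨x', hx'⟩ := h'
    obtain ⟨y, hy1, hy2⟩ := toH H h2 x
    obtain ⟨y', hy1', hy2'⟩ := toH H h2 x'
    rw [hx] at hy2
    rw [hx'] at hy2'
    obtain ⟨z, hz, h3⟩ := cm_inner ((LinearMap.ker l).map D.subtype)
      ⟨y, ⟨y, hy1, rfl⟩, hy2⟩ ⟨y', ⟨y', hy1', rfl⟩, hy2'⟩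
    obtain ⟨z', hz', rfl⟩ := hz
    refine ⟨z', ?_⟩
    rw [tw_H H (LinearMap.mem_ker.1 hz')]
    rw [tw_q, ← hs]
    exact h3

/-- all pairs of maps of `MM` are linked -/
theorem lkM [Finite V] (H : HZ S a D l) (f u : MM H) (v w : D)
    (h : (wm H).q v f = (wm H).q w u) :
    ∃ x, (wm H).q x f = (wm H).q v f ∧ (wm H).q x u = (wm H).q v f := by
  have := Fintype.ofFinite V
  have := Fintype.ofFinite D
  have := Fintype.ofFinite (MM H)
  have hT : ∀ f u : MM H, f.1.1 ≠ 0 → ∀ v w : D, (wm H).q v f = (wm H).q w u →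
      ∃ x, (wm H).q x f = (wm H).q v f ∧ (wm H).q x u = (wm H).q v f := by
    rintro ⟨⟨e, t⟩, hf⟩ u hne v w h
    rcases hf with ⟨h1, h2⟩ | ⟨h1, h2⟩ <;> simp only at h1 h2 <;> subst h1
    · exact absurd rfl hne
    · exact lk_T H h2 u v w h
  by_cases hf : f.1.1 = 0
  · by_cases hu : u.1.1 = 0
    · -- slack sums
      have key : ∀ (P : D → D → Q → Q → Prop),
          ∑ f : MM H, ∑ v : D, ∑ w : D, ind (f.1.1 = 0 ∧ P v w ((wm H).q v f) ((wm H).q w f)) =
          ∑ f : MM H, ∑ v : D, ∑ w : D,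
            ind (f.1.1 ≠ 0 ∧ P v w ((wm H).q v f) ((wm H).q w f)) := by
        intro P
        rw [Finset.sum_comm]
        conv_rhs => rw [Finset.sum_comm]
        refine Finset.sum_congr rfl fun v _ => ?_
        rw [Finset.sum_comm]
        conv_rhs => rw [Finset.sum_comm]
        refine Finset.sum_congr rfl fun w _ => ?_
        obtain ⟨t, ht, hv, hw⟩ := pairP H v w
        let m : MM H := ⟨(1, t), Or.inr ⟨rfl, ht⟩⟩
        refine Fintype.sum_equiv (Equiv.addRight m) _ _ fun f => ?_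
        show ind _ = ind ((f + m).1.1 ≠ 0 ∧ P v w ((wm H).q v (f + m)) ((wm H).q w (f + m)))
        have e1 : (wm H).q v (f + m) = (wm H).q v f := BD.r0 rfl hv
        have e2 : (wm H).q w (f + m) = (wm H).q w f := BD.r0 rfl hw
        have e3 : (f + m).1.1 = f.1.1 + 1 := rfl
        rw [e1, e2, e3]
        congr 1
        apply propext
        refine and_congr_left fun _ => ?_
        generalize f.1.1 = c
        revert c
        decide
      have kl := key fun v w b c => b = (wm H).z ∧ c = (wm H).q w u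
      have kr := key fun v w b c => (∃ x, (wm H).q x u = b) ∧
        (c = (wm H).z ∧ (wm H).q w u = (wm H).z)
      have hl : ∀ (R : Prop) (f : MM H), ind R * (Nat.card (Kf (wm H) f) *
          Nat.card (Kf (wm H) (f + u))) = ∑ v : D, ∑ w : D,
          ind (R ∧ ((wm H).q v f = (wm H).z ∧ (wm H).q w f = (wm H).q w u)) := by
        intro R f
        rw [lhs_sum, Finset.mul_sum]
        refine Finset.sum_congr rfl fun v _ => ?_
        rw [Finset.mul_sum]
        refine Finset.sum_congr rfl fun w _ => ?_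
        rw [← ind_and]
        congr 1
        rw [(wm H).qr]
      have hr : ∀ (R : Prop) (f : MM H), ind R * ((∑ v : D, ind (∃ x, (wm H).q x u =
          (wm H).q v f)) * Nat.card (Kf (wm H) f ⊓ Kf (wm H) u : Submodule (ZMod 2) D)) =
          ∑ v : D, ∑ w : D, ind (R ∧ ((∃ x, (wm H).q x u = (wm H).q v f) ∧
            ((wm H).q w f = (wm H).z ∧ (wm H).q w u = (wm H).z))) := by
        intro R f
        rw [rhs_sum, Finset.mul_sum]
        refine Finset.sum_congr rfl fun v _ => ?_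
        rw [Finset.mul_sum]
        refine Finset.sum_congr rfl fun w _ => ?_
        rw [← ind_and]
      simp only [← hl] at kl
      simp only [← hr] at kr
      have h1 : ∑ f : MM H, ind (f.1.1 ≠ 0) * (Nat.card (Kf (wm H) f) *
          Nat.card (Kf (wm H) (f + u))) = ∑ f : MM H, ind (f.1.1 ≠ 0) *
          ((∑ v : D, ind (∃ x, (wm H).q x u = (wm H).q v f)) *
            Nat.card (Kf (wm H) f ⊓ Kf (wm H) u : Submodule (ZMod 2) D)) := by
        refine Finset.sum_congr rfl fun f _ => ?_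
        by_cases hne : f.1.1 ≠ 0
        · rw [card_eq (wm H) (hT f u hne)]
        · unfold ind
          rw [if_neg hne, zero_mul, zero_mul]
      have h2 := kl.trans (h1.trans kr.symm)
      have h3 := (Finset.sum_eq_sum_iff_of_le fun f _ =>
        Nat.mul_le_mul_left (ind (f.1.1 = 0)) (card_le (wm H) f u)).1 h2 f (Finset.mem_univ _)
      have h4 : ind (f.1.1 = 0) = 1 := by unfold ind; rw [if_pos hf]
      rw [h4, one_mul, one_mul] at h3
      exact lk_of_card (wm H) h3 v w h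
    · obtain ⟨x, h1, h2⟩ := hT u f hu w v h.symm
      exact ⟨x, by rw [h2, h], by rw [h1, h]⟩
  · exact hT f u hf v w h

/-- **Theorem Z+** (note 3284), set valued -/
theorem zplus [Finite V] (H : HZ S a D l) :
    ∃ t, Sl S a t ∧ ∀ v : D, (l v = 0 → S.q t v = S.z) ∧ (l v ≠ 0 → S.q t v = a) := by
  let Λ : Module.Dual (ZMod 2) (MM H) := (LinearMap.fst (ZMod 2) (ZMod 2) V).comp (MM H).subtype
  obtain ⟨⟨⟨e, t⟩, hm⟩, h1, h2⟩ := end_thm (lkM H) (cmM H) Λ fun v => by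
    obtain ⟨t, ht, hv, -⟩ := pairP H v v
    exact ⟨⟨(1, t), Or.inr ⟨rfl, ht⟩⟩, hv, one_ne_zero⟩
  have h3 : e ≠ 0 := h2
  rcases hm with ⟨h4, h5⟩ | ⟨h4, h5⟩ <;> simp only at h4 h5
  · exact absurd h4 h3
  subst h4
  refine ⟨t, h5.1, fun v => ?_⟩
  have h6 : S.q v t = S.q v (tau S a l v) := (tw_1z H).1 (h1 v)
  refine ⟨fun h => ?_, fun h => ?_⟩
  · rw [S.symm, h6, tau0' h]
  · rw [S.symm, h6, H.tau1 h]

end Pool.Agent.ZPL53
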