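import Pool.Agent.ZPL53.End
import Pool.Agent.REL34.Basic

/-!
# Theorem Z+ (note 3284 of helper13), set valued: the twisted map

`a` is a symbol, `D` the elements annihilated by some slot of `a`, `l` a functional on `D` such that
all elements of `D` outside its kernel are slots of `a`.  The maps `(e, p)` on `D` are
`v ↦ q (v, p) + e l(v) a`.
-/

set_option autoImplicit false
set_option linter.unusedSectionVars false

namespace Pool.Agent.ZPL53

open Pool.Agent.ZPC2
open Pool.Agent.Helper58.PLine (QData)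
open Pool.Agent.REL34 (Sl lk ss xxy xyy rc r0 lc l0 ladd q0 zq Sl.co)
open Pool.Agent.HAS82 (ind ind_and natCard_eq card_mul card_mono)
open scoped Classical
open Finset

variable {V Q : Type} [AddCommGroup V] [Module (ZMod 2) V] {S : QData V Q} {a : Q}
  {D : Submodule (ZMod 2) V} {l : D →ₗ[ZMod 2] ZMod 2}

/-- the hypotheses of Theorem Z+ -/
structure HZ (S : QData V Q) (a : Q) (D : Submodule (ZMod 2) V) (l : D →ₗ[ZMod 2] ZMod 2) :
    Prop where
  he : S.e = 0
  az : a ≠ S.z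
  dm : ∀ t, t ∈ D ↔ ∃ s, Sl S a s ∧ S.q s t = S.z
  ls : ∀ v : D, l v ≠ 0 → Sl S a v
  l0 : ∃ v : D, l v ≠ 0

theorem HZ.self (H : HZ S a D l) (s : V) : S.q s s = S.z := by
  have := S.diag s
  rwa [H.he, add_zero] at this

theorem HZ.sD (H : HZ S a D l) {s : V} (h : Sl S a s) : s ∈ D := (H.dm s).2 ⟨s, h, H.self s⟩

theorem HZ.aD (H : HZ S a D l) {s t : V} (h : Sl S a s) (ht : S.q s t = S.z) : t ∈ D :=
  (H.dm t).2 ⟨s, h, ht⟩

/-- a slot for the twist -/
noncomputable def tau (S : QData V Q) (a : Q) (l : D →ₗ[ZMod 2] ZMod 2) (v : D) : V :=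
  if h : l v ≠ 0 ∧ ∃ w, S.q v w = a then h.2.choose else 0

theorem HZ.tau1 (H : HZ S a D l) {v : D} (h : l v ≠ 0) : S.q v (tau S a l v) = a := by
  have h1 : l v ≠ 0 ∧ ∃ w, S.q v w = a := ⟨h, H.ls v h⟩
  unfold tau
  rw [dif_pos h1]
  exact h1.2.choose_spec

theorem tau0 {v : D} (h : l v = 0) : tau S a l v = 0 := by
  unfold tau
  rw [dif_neg fun h1 => h1.1 h]

theorem tau0' {v : D} (h : l v = 0) : S.q v (tau S a l v) = S.z := by
  rw [tau0 h, q0]

theorem one_of {x : ZMod 2} (h : x ≠ 0) : x = 1 := by revert x; decide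

theorem l_add {v w : D} (h : l v ≠ 0) (h' : l w ≠ 0) : l (v + w) = 0 := by
  rw [map_add, one_of h, one_of h']
  rfl

theorem HZ.plane (H : HZ S a D l) (v w : D) : ∃ t0, S.q v t0 = S.q v (tau S a l v) ∧
    S.q w t0 = S.q w (tau S a l w) ∧ S.q (v + w : D) t0 = S.q (v + w : D) (tau S a l (v + w)) := by
  by_cases h : l v = 0 <;> by_cases h' : l w = 0
  · have h2 : l (v + w) = 0 := by rw [map_add, h, h', add_zero]
    exact ⟨0, by rw [tau0 h], by rw [tau0 h'], by rw [tau0 h2]⟩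
  · have h2 : l (v + w) ≠ 0 := by rw [map_add, h, zero_add]; exact h'
    obtain ⟨t, h3, h4⟩ := lk (H.ls w h') (H.ls _ h2)
    refine ⟨t, ?_, by rw [h3, H.tau1 h'], by rw [h4, H.tau1 h2]⟩
    rw [tau0' h]
    have h5 := lc h3 h4
    have h6 : (w : V) + ((v + w : D) : V) = v := by
      rw [Submodule.coe_add, add_comm (v : V), xxy]
    rwa [h6] at h5
  · have h2 : l (v + w) ≠ 0 := by rw [map_add, h', add_zero]; exact h
    obtain ⟨t, h3, h4⟩ := lk (H.ls v h) (H.ls _ h2)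
    refine ⟨t, by rw [h3, H.tau1 h], ?_, by rw [h4, H.tau1 h2]⟩
    rw [tau0' h']
    have h5 := lc h3 h4
    have h6 : (v : V) + ((v + w : D) : V) = w := by
      rw [Submodule.coe_add, xxy]
    rwa [h6] at h5
  · obtain ⟨t, h3, h4⟩ := lk (H.ls v h) (H.ls w h')
    refine ⟨t, by rw [h3, H.tau1 h], by rw [h4, H.tau1 h'], ?_⟩
    rw [tau0' (l_add h h'), Submodule.coe_add]
    exact lc h3 h4

theorem q_congr {v x y : V} {p : V} {e : ZMod 2} (h : S.q v x = S.q v y) :
    S.q v (p + e • x) = S.q v (p + e • y) := by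
  have : e = 0 ∨ e = 1 := by revert e; decide
  rcases this with rfl | rfl
  · rw [zero_smul, zero_smul]
  · rw [one_smul, one_smul, S.add]
    have h1 := (S.add v x y).1 h
    have h2 : p + x + (p + y) = x + y := by
      rw [show p + x + (p + y) = p + (p + (x + y)) by abel, xxy]
    rwa [h2]

/-- the twisted map -/
noncomputable def tw (H : HZ S a D l) : BD D (ZMod 2 × V) Q where
  q v f := S.q v (f.2 + f.1 • tau S a l v)
  z := S.z
  qr := by
    intro v f g
    rw [S.add]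
    have h : f.2 + f.1 • tau S a l v + (g.2 + g.1 • tau S a l v) =
        (f + g).2 + (f + g).1 • tau S a l v := by
      rw [Prod.snd_add, Prod.fst_add, add_smul]
      abel
    rw [h]
  ql := by
    intro v w f
    obtain ⟨t0, h1, h2, h3⟩ := H.plane v w
    rw [q_congr h1.symm, q_congr h2.symm, q_congr h3.symm, ladd]
    rfl

theorem tw_q (H : HZ S a D l) (v : D) (f : ZMod 2 × V) :
    (tw H).q v f = S.q v (f.2 + f.1 • tau S a l v) := rfl

theorem tw_z (H : HZ S a D l) : (tw H).z = S.z := rfl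

theorem tw_0 (H : HZ S a D l) (v : D) (p : V) : (tw H).q v (0, p) = S.q v p := by
  rw [tw_q]
  show S.q v (p + (0 : ZMod 2) • _) = _
  rw [zero_smul, add_zero]

theorem tw_H (H : HZ S a D l) {v : D} (h : l v = 0) (e : ZMod 2) (p : V) :
    (tw H).q v (e, p) = S.q v p := by
  rw [tw_q]
  show S.q v (p + e • _) = _
  rw [tau0 h, smul_zero, add_zero]

theorem tw_t (H : HZ S a D l) {v : D} {t0 : V} (h : S.q v t0 = S.q v (tau S a l v)) (p : V) :
    (tw H).q v (1, p) = S.q v (p + t0) := by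
  rw [tw_q]
  show S.q v (p + (1 : ZMod 2) • _) = _
  rw [← q_congr h, one_smul]

/-- `(1, p)` is zero at `v` -/
theorem tw_1z (H : HZ S a D l) {v : D} {p : V} :
    (tw H).q v (1, p) = S.z ↔ S.q v p = S.q v (tau S a l v) := by
  rw [tw_t H rfl, S.add]

theorem cm_inner (E : Submodule (ZMod 2) V) {v p g g' : V} (h : ∃ x ∈ E, S.q x p = S.q v g)
    (h' : ∃ x ∈ E, S.q x p = S.q v g') : ∃ x ∈ E, S.q x p = S.q v (g + g') := by
  obtain ⟨x, hx, h1⟩ := h
  obtain ⟨x', hx', h2⟩ := h'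
  rw [S.symm] at h1 h2
  obtain ⟨y, h3, h4⟩ := S.link _ _ _ _ h1
  obtain ⟨y', h5, h6⟩ := S.link _ _ _ _ h2
  refine ⟨x + x', E.add_mem hx hx', ?_⟩
  rw [S.symm]
  have e1 : S.q (p + v) y = S.z := (ladd _ _ _).1 (by rw [← h3, ← h4, h1])
  have e2 : S.q (p + v) y' = S.z := (ladd _ _ _).1 (by rw [← h5, ← h6, h2])
  have e3 : S.q p (y + y') = S.q v (y + y') := (ladd _ _ _).2 (r0 e1 e2)
  have e4 : S.q p (x + x') = S.q p (y + y') := by
    rw [S.add]
    have := r0 ((S.add _ _ _).1 h3) ((S.add _ _ _).1 h5)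
    rwa [show x + y + (x' + y') = x + x' + (y + y') by abel] at this
  have e5 : S.q v (g + g') = S.q v (y + y') := by
    rw [S.add]
    have := r0 ((S.add _ _ _).1 h4) ((S.add _ _ _).1 h6)
    rwa [show g + y + (g' + y') = g + g' + (y + y') by abel] at this
  rw [e4, e3, e5]

/-- linkage of an inner map and a slot of `a` through `D` -/
theorem lk_in (H : HZ S a D l) {u : V} (hu : Sl S a u) (p : V) (v w : D)
    (h : (tw H).q v (0, p) = (tw H).q w (0, u)) :
    ∃ x : D, (tw H).q x (0, p) = (tw H).q v (0, p) ∧ (tw H).q x (0, u) = (tw H).q v (0, p) := by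
  rw [tw_0, tw_0] at h
  rw [S.symm, S.symm (w : V)] at h
  obtain ⟨y, h1, h2⟩ := S.link _ _ _ _ h
  have h3 : (w : V) + y ∈ D := H.aD hu ((S.add _ _ _).1 h2)
  have h4 : y ∈ D := (D.add_mem_iff_right w.2).1 h3
  refine ⟨⟨y, h4⟩, ?_, ?_⟩
  · rw [tw_0, tw_0]
    show S.q y p = _
    rw [S.symm, ← h1, S.symm]
  · rw [tw_0, tw_0]
    show S.q y u = _
    rw [S.symm, ← h2, ← h, S.symm]

/-! ### Shifts -/

theorem shiftD [Fintype V] [Fintype D] (H : HZ S a D l) (P : D → D → Q → Q → Prop) :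
    ∑ p : V, ∑ v : D, ∑ w : D, ind (P v w ((tw H).q v (1, p)) ((tw H).q w (1, p))) =
    ∑ p : V, ∑ v : D, ∑ w : D, ind (P v w ((tw H).q v (0, p)) ((tw H).q w (0, p))) := by
  rw [Finset.sum_comm]
  conv_rhs => rw [Finset.sum_comm]
  refine Finset.sum_congr rfl fun v _ => ?_
  rw [Finset.sum_comm]
  conv_rhs => rw [Finset.sum_comm]
  refine Finset.sum_congr rfl fun w _ => ?_
  obtain ⟨t0, h1, h2, -⟩ := H.plane v w
  refine Fintype.sum_equiv (Equiv.addRight t0) _ _ fun p => ?_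
  show ind _ = ind (P v w ((tw H).q v (0, p + t0)) ((tw H).q w (0, p + t0)))
  rw [tw_t H h1, tw_t H h2, tw_0, tw_0]

theorem lhs_sh [Fintype V] [Fintype D] (H : HZ S a D l) (u : V) :
    ∑ p : V, Nat.card (Kf (tw H) (1, p)) * Nat.card (Kf (tw H) ((1, p) + (0, u))) =
    ∑ p : V, Nat.card (Kf (tw H) (0, p)) * Nat.card (Kf (tw H) ((0, p) + (0, u))) := by
  have h := shiftD H fun v w b c => b = (tw H).z ∧ c = (tw H).q w (0, u)
  have h1 : ∀ e : ZMod 2, ∀ p : V,
      Nat.card (Kf (tw H) (e, p)) * Nat.card (Kf (tw H) ((e, p) + (0, u))) =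
      ∑ v : D, ∑ w : D, ind ((tw H).q v (e, p) = (tw H).z ∧ (tw H).q w (e, p) = (tw H).q w (0, u)) := by
    intro e p
    rw [lhs_sum]
    refine Finset.sum_congr rfl fun v _ => Finset.sum_congr rfl fun w _ => ?_
    congr 1
    rw [(tw H).qr]
  simp only [h1]
  exact h

theorem rhs_sh [Fintype V] [Fintype D] (H : HZ S a D l) (u : V) :
    ∑ p : V, (∑ v : D, ind (∃ x, (tw H).q x (0, u) = (tw H).q v (1, p))) *
      Nat.card (Kf (tw H) (1, p) ⊓ Kf (tw H) (0, u) : Submodule (ZMod 2) D) =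
    ∑ p : V, (∑ v : D, ind (∃ x, (tw H).q x (0, u) = (tw H).q v (0, p))) *
      Nat.card (Kf (tw H) (0, p) ⊓ Kf (tw H) (0, u) : Submodule (ZMod 2) D) := by
  have h := shiftD H fun v w b c => (∃ x, (tw H).q x (0, u) = b) ∧
    (c = (tw H).z ∧ (tw H).q w (0, u) = (tw H).z)
  simp only [rhs_sum]
  exact h

/-- (1) of note 3284 -/
theorem lk1 [Finite V] (H : HZ S a D l) {u : V} (hu : Sl S a u) (e : ZMod 2) (p : V) :
    ∀ v w : D, (tw H).q v (e, p) = (tw H).q w (0, u) →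
      ∃ x : D, (tw H).q x (e, p) = (tw H).q v (e, p) ∧ (tw H).q x (0, u) = (tw H).q v (e, p) := by
  have := Fintype.ofFinite V
  have := Fintype.ofFinite D
  have he : e = 0 ∨ e = 1 := by revert e; decide
  rcases he with rfl | rfl
  · exact lk_in H hu p
  · have h1 : ∑ p : V, Nat.card (Kf (tw H) (1, p)) * Nat.card (Kf (tw H) ((1, p) + (0, u))) =
        ∑ p : V, (∑ v : D, ind (∃ x, (tw H).q x (0, u) = (tw H).q v (1, p))) *
        Nat.card (Kf (tw H) (1, p) ⊓ Kf (tw H) (0, u) : Submodule (ZMod 2) D) := by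
      rw [lhs_sh, rhs_sh]
      exact Finset.sum_congr rfl fun p _ => card_eq (tw H) (lk_in H hu p)
    have h2 := (Finset.sum_eq_sum_iff_of_le fun p _ => card_le (tw H) (1, p) (0, u)).1 h1 p
      (Finset.mem_univ _)
    exact lk_of_card (tw H) h2

end Pool.Agent.ZPL53
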